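import Mathlib
import Pool.Agent.Lib.MP_67dbdc_al.Relative

/-!
The elementary abelian subgroup problem for `p = 3` (S01759), relative to a normal subgroup `N` of
an arbitrary finite 3-group `G`, for four kinds of normal subgroups `N`.
-/

open Subgroup
open scoped commutatorElement

namespace Pool.Agent.Results.MP_67dbdc_al.NormalSubgroups

universe u

variable {G : Type u} [Group G]

/-- Commutators of a descending normal series with the lower central series of `S`. -/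
lemma comm_series (S : Subgroup G) (F : ℕ → Subgroup G) (hF : ∀ j, (F j).Normal)
    (h : ∀ j, ∀ a ∈ F j, ∀ g ∈ S, ⁅a, g⁆ ∈ F (j + 1)) :
    ∀ i j : ℕ, ∀ a ∈ F j, ∀ c ∈ S.lowerCentralSeries i, ⁅a, c⁆ ∈ F (j + i + 1) := by
  intro i
  induction i with
  | zero =>
    intro j a ha c hc
    exact h j a ha c hc
  | succ i ih =>
    intro j a ha c hc
    have hN : (F (j + (i + 1) + 1)).Normal := hF _
    rw [Subgroup.lowerCentralSeries_succ, Subgroup.commutator_def] at hc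
    induction hc using Subgroup.closure_induction with
    | mem x hx =>
      obtain ⟨u, hu, v, hv, rfl⟩ := hx
      have e : ⁅a, ⁅u, v⁆⁆ = u * ((a * (⁅v, ⁅a⁻¹, u⁻¹⁆⁆⁻¹) * a⁻¹) *
          (v * (⁅u⁻¹, ⁅v⁻¹, a⁆⁆⁻¹) * v⁻¹)) * u⁻¹ := by
        simp only [commutatorElement_def]; group
      rw [e]
      have h1 : ⁅v, ⁅a⁻¹, u⁻¹⁆⁆ ∈ F (j + (i + 1) + 1) :=
        MP67.inv_comm (h (j + i + 1) _ (ih j _ (inv_mem ha) _ (inv_mem hu)) v hv)
      have h2 : ⁅u⁻¹, ⁅v⁻¹, a⁆⁆ ∈ F (j + (i + 1) + 1) := by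
        have h3 := MP67.inv_comm (ih (j + 1) _ (MP67.inv_comm (h j a ha _ (inv_mem hv))) _
          (inv_mem hu))
        rwa [show j + 1 + i + 1 = j + (i + 1) + 1 by omega] at h3
      exact hN.conj_mem _ (mul_mem (hN.conj_mem _ (inv_mem h1) a)
        (hN.conj_mem _ (inv_mem h2) v)) u
    | one => rw [commutatorElement_one_right]; exact one_mem _
    | mul x y _ _ hx hy =>
      have e : ⁅a, x * y⁆ = ⁅a, x⁆ * (x * ⁅a, y⁆ * x⁻¹) := by
        simp only [commutatorElement_def]; group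
      rw [e]
      exact mul_mem hx (hN.conj_mem _ hy x)
    | inv x _ hx =>
      have e : ⁅a, x⁻¹⁆ = x⁻¹ * ⁅a, x⁆⁻¹ * x⁻¹⁻¹ := by
        simp only [commutatorElement_def]; group
      rw [e]
      exact hN.conj_mem _ (inv_mem hx) x⁻¹

/-- The condition on the elements of order 3. -/
def Cond (N : Subgroup G) : Prop :=
  ∀ l ∈ (⁅⁅N, (⊤ : Subgroup G)⁆, ⁅⁅⁅N, (⊤ : Subgroup G)⁆, N⁆, N⁆⁆ ⊔
      ⁅⁅⁅N, (⊤ : Subgroup G)⁆, ⁅N, (⊤ : Subgroup G)⁆⁆, N⁆ : Subgroup G), l ^ 3 = 1 →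
    (∀ d ∈ ⁅⁅N, (⊤ : Subgroup G)⁆, N⁆, l * d = d * l) ∨
    (∀ c ∈ ⁅N, (⊤ : Subgroup G)⁆, ∀ c' ∈ ⁅N, (⊤ : Subgroup G)⁆, ⁅⁅l, c⁆, c'⁆ = 1)

lemma cond_of_class_four (N : Subgroup G) [hN : N.Normal] (h : N.lowerCentralSeries 4 = ⊥) :
    Cond N := by
  intro l hl _
  refine Or.inl fun d hd => ?_
  have hR : ⁅N, (⊤ : Subgroup G)⁆ ≤ N := commutator_le_left _ _
  have hD : ⁅⁅N, (⊤ : Subgroup G)⁆, N⁆ ≤ N.lowerCentralSeries 1 := commutator_mono hR le_rfl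
  have hn : ∀ j, (N.lowerCentralSeries j).Normal := fun j => inferInstance
  have hV : ⁅⁅⁅N, (⊤ : Subgroup G)⁆, N⁆, N⁆ ≤ N.lowerCentralSeries 2 :=
    commutator_mono hD le_rfl
  have hY : (⁅⁅N, (⊤ : Subgroup G)⁆, ⁅⁅⁅N, (⊤ : Subgroup G)⁆, N⁆, N⁆⁆ ⊔
      ⁅⁅⁅N, (⊤ : Subgroup G)⁆, ⁅N, (⊤ : Subgroup G)⁆⁆, N⁆ : Subgroup G) ≤
      N.lowerCentralSeries 2 := by
    refine sup_le ?_ ?_
    · have h2 := hn 2
      exact (commutator_mono le_rfl hV).trans (commutator_le_right _ _)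
    · exact commutator_mono (commutator_mono hR hR) le_rfl
  have h1 := comm_series N (fun j => N.lowerCentralSeries j) hn
    (fun j a ha g hg => commutator_mem_commutator ha hg) 1 2 l (hY hl) d (hD hd)
  have h2 : ⁅l, d⁆ ∈ N.lowerCentralSeries 4 := h1
  rw [h, mem_bot] at h2
  exact commutatorElement_eq_one_iff_mul_comm.mp h2

lemma cond_of_commutator (N : Subgroup G) [hN : N.Normal]
    (h : (⁅N, (⊤ : Subgroup G)⁆ : Subgroup G).lowerCentralSeries 3 = ⊥) : Cond N := by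
  intro l hl _
  refine Or.inr fun c hc c' hc' => ?_
  set R : Subgroup G := ⁅N, (⊤ : Subgroup G)⁆ with hRdef
  have hRn : R.Normal := commutator_normal _ _
  have hRR : (⁅R, R⁆ : Subgroup G).Normal := commutator_normal _ _
  have hle : (⁅R, ⁅⁅R, N⁆, N⁆⁆ ⊔ ⁅⁅R, R⁆, N⁆ : Subgroup G) ≤ R.lowerCentralSeries 1 := by
    refine sup_le (commutator_mono le_rfl ?_) (commutator_le_left _ _)
    exact (commutator_le_left _ _).trans (commutator_le_left _ _)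
  have h2 : ⁅⁅l, c⁆, c'⁆ ∈ R.lowerCentralSeries 3 :=
    commutator_mem_commutator (commutator_mem_commutator (hle hl) hc) hc'
  rw [h, mem_bot] at h2
  exact h2

lemma cond_of_central (N : Subgroup G) (k : ℕ)
    (h1 : N ≤ (⊤ : Subgroup G).lowerCentralSeries k)
    (h2 : N ≤ Subgroup.upperCentralSeries G (4 * k + 8)) : Cond N := by
  intro l hl _
  refine Or.inr fun c hc c' hc' => ?_
  set F : ℕ → Subgroup G := fun j => Subgroup.upperCentralSeries G (4 * k + 8 - j) with hFdef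
  have hF : ∀ j, (F j).Normal := fun j => inferInstance
  have hF1 : ∀ j, ∀ a ∈ F j, ∀ g ∈ (⊤ : Subgroup G), ⁅a, g⁆ ∈ F (j + 1) := by
    intro j a ha g _
    by_cases hj : 4 * k + 8 - j = 0
    · simp only [hFdef] at ha
      rw [hj, Subgroup.upperCentralSeries_zero, mem_bot] at ha
      rw [ha, commutatorElement_one_left]
      exact one_mem _
    · obtain ⟨m, hm⟩ := Nat.exists_eq_succ_of_ne_zero hj
      simp only [hFdef] at ha ⊢
      rw [hm, Nat.succ_eq_add_one, Subgroup.mem_upperCentralSeries_succ_iff] at ha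
      have e : 4 * k + 8 - (j + 1) = m := by omega
      rw [e]
      exact ha g
  have key := comm_series (⊤ : Subgroup G) F hF hF1
  have anti : ∀ i j, i ≤ j → F j ≤ F i := by
    intro i j hij
    exact Subgroup.upperCentralSeries_mono G (by omega)
  have hN0 : N ≤ F 0 := by
    simpa [hFdef] using h2
  have hR1 : ⁅N, (⊤ : Subgroup G)⁆ ≤ F 1 := by
    rw [commutator_le]
    intro a ha g hg
    exact hF1 0 a (hN0 ha) g hg
  have hR2 : ⁅N, (⊤ : Subgroup G)⁆ ≤ (⊤ : Subgroup G).lowerCentralSeries (k + 1) :=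
    commutator_mono h1 le_rfl
  have hD : ⁅⁅N, (⊤ : Subgroup G)⁆, N⁆ ≤ F (k + 2) := by
    rw [commutator_le]
    intro a ha t ht
    have h3 := key k 1 a (hR1 ha) t (h1 ht)
    rwa [show 1 + k + 1 = k + 2 by omega] at h3
  have hV : ⁅⁅⁅N, (⊤ : Subgroup G)⁆, N⁆, N⁆ ≤ F (2 * k + 3) := by
    rw [commutator_le]
    intro a ha t ht
    have h3 := key k (k + 2) a (hD ha) t (h1 ht)
    rwa [show k + 2 + k + 1 = 2 * k + 3 by omega] at h3
  have hY : (⁅⁅N, (⊤ : Subgroup G)⁆, ⁅⁅⁅N, (⊤ : Subgroup G)⁆, N⁆, N⁆⁆ ⊔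
      ⁅⁅⁅N, (⊤ : Subgroup G)⁆, ⁅N, (⊤ : Subgroup G)⁆⁆, N⁆ : Subgroup G) ≤ F (2 * k + 4) := by
    refine sup_le ?_ ?_
    · rw [commutator_comm, commutator_le]
      intro v hv c hc
      have h3 := key (k + 1) (2 * k + 3) v (hV hv) c (hR2 hc)
      exact anti _ _ (by omega) h3
    · have hRR : ⁅⁅N, (⊤ : Subgroup G)⁆, ⁅N, (⊤ : Subgroup G)⁆⁆ ≤ F (k + 3) := by
        rw [commutator_le]
        intro a ha b hb
        have h3 := key (k + 1) 1 a (hR1 ha) b (hR2 hb)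
        rwa [show 1 + (k + 1) + 1 = k + 3 by omega] at h3
      rw [commutator_le]
      intro a ha t ht
      have h3 := key k (k + 3) a (hRR ha) t (h1 ht)
      rwa [show k + 3 + k + 1 = 2 * k + 4 by omega] at h3
  have h3 := key (k + 1) (2 * k + 4) l (hY hl) c (hR2 hc)
  have h4 := key (k + 1) _ _ h3 c' (hR2 hc')
  have h5 : ⁅⁅l, c⁆, c'⁆ ∈ F (4 * k + 8) := by
    rwa [show 2 * k + 4 + (k + 1) + 1 + (k + 1) + 1 = 4 * k + 8 by omega] at h4
  simp only [hFdef] at h5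
  rw [Nat.sub_self, Subgroup.upperCentralSeries_zero, mem_bot] at h5
  exact h5

/-- Let `G` be a finite 3-group and `N` a normal subgroup of `G` satisfying one of the following
conditions:
* `N` has class at most 4;
* `[N,G]` has class at most 3;
* `N` is contained in `γ_(k+1)(G)` and in `Z_(4k+8)(G)` for some `k ≥ 0`;
* with `R = [N,G]`, `D = [R,N]`, `V = [D,N]` and `Y = [R,V][[R,R],N]`, every `l ∈ Y` with
  `l ^ 3 = 1` either commutes with all elements of `D` or satisfies `[[l,c],c'] = 1` for all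
  `c, c' ∈ R`.
If `N` has an elementary abelian subgroup of order `3 ^ n`, then it has an elementary abelian
subgroup `B` of order `3 ^ n` that is normal in its normal closure in `G`. -/
theorem result (n : ℕ) (G : Type*) [Group G] [Finite G] (hG : IsPGroup 3 G)
    (N : Subgroup G) (hN : N.Normal)
    (hU : N.lowerCentralSeries 4 = ⊥ ∨
      (⁅N, (⊤ : Subgroup G)⁆ : Subgroup G).lowerCentralSeries 3 = ⊥ ∨
      (∃ k : ℕ, N ≤ (⊤ : Subgroup G).lowerCentralSeries k ∧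
        N ≤ Subgroup.upperCentralSeries G (4 * k + 8)) ∨
      ∀ l ∈ (⁅⁅N, (⊤ : Subgroup G)⁆, ⁅⁅⁅N, (⊤ : Subgroup G)⁆, N⁆, N⁆⁆ ⊔
          ⁅⁅⁅N, (⊤ : Subgroup G)⁆, ⁅N, (⊤ : Subgroup G)⁆⁆, N⁆ : Subgroup G), l ^ 3 = 1 →
        (∀ d ∈ ⁅⁅N, (⊤ : Subgroup G)⁆, N⁆, l * d = d * l) ∨
        (∀ c ∈ ⁅N, (⊤ : Subgroup G)⁆, ∀ c' ∈ ⁅N, (⊤ : Subgroup G)⁆, ⁅⁅l, c⁆, c'⁆ = 1))
    (hA : ∃ A : Subgroup G, A ≤ N ∧ (∀ x ∈ A, ∀ y ∈ A, x * y = y * x) ∧
      (∀ x ∈ A, x ^ 3 = 1) ∧ Nat.card A = 3 ^ n) :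
    ∃ B : Subgroup G, B ≤ N ∧ (∀ x ∈ B, ∀ y ∈ B, x * y = y * x) ∧ (∀ x ∈ B, x ^ 3 = 1) ∧
      Nat.card B = 3 ^ n ∧
      ∀ g ∈ Subgroup.normalClosure (B : Set G), ∀ b ∈ B, g * b * g⁻¹ ∈ B := by
  have hUU : Cond N := by
    rcases hU with h | h | ⟨k, h1, h2⟩ | h
    · exact cond_of_class_four N h
    · exact cond_of_commutator N h
    · exact cond_of_central N k h1 h2
    · exact h
  have i1 : (⁅N, (⊤ : Subgroup G)⁆ : Subgroup G).Normal := commutator_normal _ _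
  have i2 : (⁅⁅N, (⊤ : Subgroup G)⁆, N⁆ : Subgroup G).Normal := commutator_normal _ _
  have i3 : (⁅⁅⁅N, (⊤ : Subgroup G)⁆, N⁆, N⁆ : Subgroup G).Normal := commutator_normal _ _
  have i4 : (⁅⁅N, (⊤ : Subgroup G)⁆, ⁅N, (⊤ : Subgroup G)⁆⁆ : Subgroup G).Normal :=
    commutator_normal _ _
  have i5 : (⁅⁅N, (⊤ : Subgroup G)⁆, ⁅⁅⁅N, (⊤ : Subgroup G)⁆, N⁆, N⁆⁆ : Subgroup G).Normal :=
    commutator_normal _ _
  have i6 : (⁅⁅⁅N, (⊤ : Subgroup G)⁆, ⁅N, (⊤ : Subgroup G)⁆⁆, N⁆ : Subgroup G).Normal :=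
    commutator_normal _ _
  refine MP67.mainR hG N ⁅N, (⊤ : Subgroup G)⁆ ⁅⁅N, (⊤ : Subgroup G)⁆, N⁆
    ⁅⁅⁅N, (⊤ : Subgroup G)⁆, N⁆, N⁆
    (⁅⁅N, (⊤ : Subgroup G)⁆, ⁅⁅⁅N, (⊤ : Subgroup G)⁆, N⁆, N⁆⁆ ⊔
      ⁅⁅⁅N, (⊤ : Subgroup G)⁆, ⁅N, (⊤ : Subgroup G)⁆⁆, N⁆) hN i1 i2 inferInstance ?_ ?_ ?_
      ?_ ?_ ?_ hUU n hA
  · intro t ht g
    exact MP67.inv_comm (commutator_mem_commutator ht (mem_top g))
  · intro c hc t ht
    exact commutator_mem_commutator hc ht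
  · exact commutator_le_left _ _
  · intro d hd t ht
    exact commutator_mem_commutator hd ht
  · intro c hc v hv
    exact mem_sup_left (commutator_mem_commutator hc hv)
  · intro d hd t ht
    exact mem_sup_right (commutator_mem_commutator hd ht)

end Pool.Agent.Results.MP_67dbdc_al.NormalSubgroups
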