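import Mathlib
import Pool.Agent.Lib.MP_67dbdc_al.MaxOrder

/-!
Elementary abelian subgroups normal in their normal closure, `p = 3`: the question is equivalent
to its case `n = ` 3-rank, and to its relative version for normal subgroups.
-/

set_option autoImplicit false

open Subgroup MP67R

namespace Pool.Agent.Results.MP_67dbdc_al.RelativeVersion

section relative

open RegularWreathProduct

/-- the padding group -/
abbrev DD (G : Type) := G → Multiplicative (ZMod 3)

/-- the padded cover `DD G ≀ᵣ G` of `G` -/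
abbrev KK (G : Type) [Group G] := RegularWreathProduct (DD G) G

variable {G : Type} [Group G]

/-- the fibre product of `G` and `KK G` over `G ⧸ N` -/
def WW (N : Subgroup G) [N.Normal] : Subgroup (G × KK G) :=
  MonoidHom.eqLocus ((QuotientGroup.mk' N).comp (MonoidHom.fst G (KK G)))
    ((QuotientGroup.mk' N).comp ((rightHom : KK G →* G).comp (MonoidHom.snd G (KK G))))

theorem mem_WW {N : Subgroup G} [N.Normal] {w : G × KK G} :
    w ∈ WW N ↔ (w.1 : G ⧸ N) = (w.2.right : G ⧸ N) := Iff.rfl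

/-- first coordinate -/
def fw (N : Subgroup G) [N.Normal] : WW N →* G := (MonoidHom.fst G (KK G)).comp (WW N).subtype

/-- image in `G` of the second coordinate -/
def rw' (N : Subgroup G) [N.Normal] : WW N →* G :=
  ((rightHom : KK G →* G).comp (MonoidHom.snd G (KK G))).comp (WW N).subtype

/-- the base group -/
def jj (G : Type) [Group G] : (G → DD G) →* KK G where
  toFun f := ⟨f, 1⟩
  map_one' := rfl
  map_mul' f g := by
    ext x
    · simp [mul_def]
    · simp [mul_def]

theorem jj_left {k : KK G} (hk : k.right = 1) : jj G k.left = k := by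
  ext x
  · rfl
  · exact hk.symm

theorem fw_mem {N : Subgroup G} [N.Normal] {w : WW N} (h : rw' N w = 1) : fw N w ∈ N := by
  have h1 : (w.1.1 : G ⧸ N) = (w.1.2.right : G ⧸ N) := mem_WW.1 w.2
  have h2 : w.1.2.right = 1 := h
  rw [h2] at h1
  exact (QuotientGroup.eq_one_iff w.1.1).1 h1

/-- the elements over `A` and over the base group -/
def lift (N A : Subgroup G) [N.Normal] : Subgroup (WW N) := A.comap (fw N) ⊓ (rw' N).ker

omit [Group G] in
theorem DD_pow (f : G → DD G) : f ^ 3 = 1 := by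
  ext x y
  simp only [Pi.pow_apply, Pi.one_apply]
  have : ∀ z : Multiplicative (ZMod 3), z ^ 3 = 1 := by decide
  rw [this]

theorem mem_lift {N A : Subgroup G} [N.Normal] {w : WW N} :
    w ∈ lift N A ↔ fw N w ∈ A ∧ rw' N w = 1 := Iff.rfl

theorem ea_lift {N A : Subgroup G} [N.Normal] (hA : EA A) : EA (lift N A) := by
  refine ⟨fun x hx y hy => ?_, fun x hx => ?_⟩
  · obtain ⟨hx1, hx2⟩ := mem_lift.1 hx
    obtain ⟨hy1, hy2⟩ := mem_lift.1 hy
    apply Subtype.ext
    apply Prod.ext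
    · exact hA.1 _ hx1 _ hy1
    · have h1 := jj_left (k := x.1.2) hx2
      have h2 := jj_left (k := y.1.2) hy2
      change x.1.2 * y.1.2 = y.1.2 * x.1.2
      rw [← h1, ← h2, ← map_mul, ← map_mul, mul_comm]
  · obtain ⟨hx1, hx2⟩ := mem_lift.1 hx
    apply Subtype.ext
    apply Prod.ext
    · exact hA.2 _ hx1
    · have h1 := jj_left (k := x.1.2) hx2
      change x.1.2 ^ 3 = 1
      rw [← h1, ← map_pow, DD_pow, map_one]

/-- the elements of `lift N A` are pairs -/
noncomputable def liftEquiv {N A : Subgroup G} [N.Normal] (hA : A ≤ N) :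
    lift N A ≃ A × (G → DD G) where
  toFun w := (⟨fw N w.1, w.2.1⟩, w.1.1.2.left)
  invFun a := ⟨⟨(a.1.1, jj G a.2), by
      rw [mem_WW]
      change (a.1.1 : G ⧸ N) = ((1 : G) : G ⧸ N)
      exact (QuotientGroup.eq_one_iff a.1.1).2 (hA a.1.2)⟩, by
      rw [mem_lift]
      exact ⟨a.1.2, rfl⟩⟩
  left_inv w := by
    apply Subtype.ext
    apply Subtype.ext
    apply Prod.ext
    · rfl
    · exact jj_left (k := w.1.1.2) w.2.2
  right_inv a := rfl

theorem card_lift {N A : Subgroup G} [N.Normal] (hA : A ≤ N) :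
    Nat.card (lift N A) = Nat.card A * Nat.card (G → DD G) := by
  rw [Nat.card_congr (liftEquiv hA), Nat.card_prod]

omit [Group G] in
theorem card_DD [Finite G] : Nat.card G < Nat.card (DD G) := by
  have h1 : Nat.card (DD G) = 3 ^ Nat.card G := by
    rw [Nat.card_fun]
    simp
  rw [h1]
  exact Nat.lt_pow_self (by norm_num)

/-- the counting bound: an elementary abelian subgroup which is not over the base is small -/
theorem small [Finite G] {N : Subgroup G} [N.Normal] {B : Subgroup (WW N)} (hB : EA B)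
    {M : ℕ} (hM : ∀ A : Subgroup G, A ≤ N → EA A → Nat.card A ≤ M) {a : WW N} (ha : a ∈ B)
    (hne : rw' N a ≠ 1) : Nat.card B < M * Nat.card (G → DD G) := by
  classical
  set g := rw' N a with hg
  set B0 : Subgroup (WW N) := B ⊓ (rw' N).ker with hB0
  -- card B = card B0 * card of the image
  have h1 : Nat.card B = Nat.card B0 * Nat.card (B.map (rw' N)) := by
    have h2 : Nat.card ((rw' N).ker.subgroupOf B) * ((rw' N).ker.subgroupOf B).index
        = Nat.card B := card_mul_index _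
    have h3 : ((rw' N).ker.subgroupOf B).index = Nat.card (B.map (rw' N)) := relIndex_ker B _
    have h4 : Nat.card ((rw' N).ker.subgroupOf B) = Nat.card B0 := by
      rw [← inf_subgroupOf_right (rw' N).ker B, inf_comm (rw' N).ker B]
      exact Nat.card_congr (subgroupOfEquivOfLe inf_le_left).toEquiv
    rw [← h2, h3, h4]
  -- the functions are invariant
  have hinv : ∀ w ∈ B0, w.1.2.left g = w.1.2.left 1 := by
    intro w hw
    have hw1 : w.1.2.right = 1 := hw.2
    have hc : w * a = a * w := hB.1 w hw.1 a ha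
    have hc2 : (w.1.2 * a.1.2).left = (a.1.2 * w.1.2).left :=
      congrArg (fun z : WW N => z.1.2.left) hc
    have hc3 := congrFun hc2 g
    have hg' : a.1.2.right = g := rfl
    simp only [mul_def, Pi.mul_apply, hw1, hg', inv_one, one_mul, inv_mul_cancel] at hc3
    rw [mul_comm] at hc3
    exact mul_left_cancel hc3
  set E := B0.map (fw N) with hE
  have hEN : E ≤ N := by
    rintro _ ⟨w, hw, rfl⟩
    exact fw_mem hw.2
  have hEE : EA E := by
    constructor
    · rintro _ ⟨w, hw, rfl⟩ _ ⟨v, hv, rfl⟩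
      rw [← map_mul, ← map_mul, hB.1 w hw.1 v hv.1]
    · rintro _ ⟨w, hw, rfl⟩
      rw [← map_pow, hB.2 w hw.1, map_one]
  -- the injection
  have h5 : Nat.card B0 * Nat.card (DD G) ≤ Nat.card E * Nat.card (G → DD G) := by
    rw [← Nat.card_prod, ← Nat.card_prod]
    refine Nat.card_le_card_of_injective
      (fun x : B0 × DD G => ((⟨fw N x.1, mem_map_of_mem _ x.1.2⟩ : E),
        Function.update x.1.1.1.2.left g x.2)) ?_
    rintro ⟨w, d⟩ ⟨v, d'⟩ hwv
    simp only [Prod.mk.injEq, Subtype.mk.injEq] at hwv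
    obtain ⟨h6, h7⟩ := hwv
    have h8 : d = d' := by
      have := congrFun h7 g
      simpa using this
    have h9 : ∀ x, x ≠ g → w.1.1.2.left x = v.1.1.2.left x := by
      intro x hx
      have := congrFun h7 x
      simpa [Function.update_of_ne hx] using this
    have h10 : w.1.1.2.left = v.1.1.2.left := by
      funext x
      by_cases hx : x = g
      · rw [hx, hinv w.1 w.2, hinv v.1 v.2]
        exact h9 1 (fun h => hne h.symm)
      · exact h9 x hx
    have h11 : w = v := by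
      apply Subtype.ext
      apply Subtype.ext
      apply Prod.ext
      · exact h6
      · apply RegularWreathProduct.ext
        · exact h10
        · have hw1 : w.1.1.2.right = 1 := w.2.2
          have hv1 : v.1.1.2.right = 1 := v.2.2
          rw [hw1, hv1]
    rw [h11, h8]
  have h12 : Nat.card (B.map (rw' N)) ≤ Nat.card G := card_le_card_group _
  have h13 : 0 < Nat.card (DD G) := Nat.card_pos
  have h14 : 0 < Nat.card (G → DD G) := Nat.card_pos
  have h15 := card_DD (G := G)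
  have hM0 : 0 < M := lt_of_lt_of_le Nat.card_pos (hM ⊥ bot_le
    ⟨fun x hx y hy => by rw [mem_bot.1 hx, mem_bot.1 hy], fun x hx => by
      rw [mem_bot.1 hx, one_pow]⟩)
  have h16 := hM E hEN hEE
  by_contra hcon
  rw [not_lt] at hcon
  have h17 : M * Nat.card (G → DD G) * Nat.card (DD G) ≤
      M * Nat.card (G → DD G) * Nat.card G := by
    calc M * Nat.card (G → DD G) * Nat.card (DD G) ≤ Nat.card B * Nat.card (DD G) :=
          Nat.mul_le_mul_right _ hcon
      _ = Nat.card B0 * Nat.card (DD G) * Nat.card (B.map (rw' N)) := by rw [h1]; ring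
      _ ≤ Nat.card E * Nat.card (G → DD G) * Nat.card (B.map (rw' N)) :=
          Nat.mul_le_mul_right _ h5
      _ ≤ M * Nat.card (G → DD G) * Nat.card G :=
          Nat.mul_le_mul (Nat.mul_le_mul_right _ h16) h12
  have h18 := Nat.le_of_mul_le_mul_left h17 (Nat.mul_pos hM0 h14)
  omega

/-- the relative version, maximal order -/
theorem rel_max (hS : ∀ (H : Type) [Group H] [Finite H], IsPGroup 3 H →
      ∃ B : Subgroup H, EA B ∧ (∀ A : Subgroup H, EA A → Nat.card A ≤ Nat.card B) ∧ NC B)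
    [Finite G] (hG : IsPGroup 3 G) (N : Subgroup G) [N.Normal] :
    ∃ B : Subgroup G, B ≤ N ∧ EA B ∧
      (∀ A : Subgroup G, A ≤ N → EA A → Nat.card A ≤ Nat.card B) ∧ NC B := by
  classical
  have hp3 : Fact (Nat.Prime 3) := ⟨Nat.prime_three⟩
  have hK : IsPGroup 3 (KK G) := by
    obtain ⟨n, hn⟩ := IsPGroup.iff_card.1 hG
    have h1 : Nat.card (KK G) = 3 ^ (Nat.card G * Nat.card G + n) := by
      rw [RegularWreathProduct.card, hn, Nat.card_fun]
      simp only [hn, Nat.card_eq_fintype_card, Fintype.card_multiplicative, ZMod.card]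
      rw [pow_add, ← pow_mul]
    exact IsPGroup.of_card h1
  have hW : IsPGroup 3 (WW N) := by
    have h1 : IsPGroup 3 (G × KK G) := by
      obtain ⟨n, hn⟩ := IsPGroup.iff_card.1 hG
      obtain ⟨m, hm⟩ := IsPGroup.iff_card.1 hK
      refine IsPGroup.of_card (n := n + m) ?_
      rw [Nat.card_prod, hn, hm, pow_add]
    exact h1.to_subgroup _
  obtain ⟨B, hB, hmax, hnc⟩ := hS (WW N) hW
  obtain ⟨A0, ⟨hA0N, hA0⟩, hA0m⟩ := Set.exists_max_image {A : Subgroup G | A ≤ N ∧ EA A}
    (fun A => Nat.card A) (Set.toFinite _) ⟨⊥, bot_le,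
      fun x hx y hy => by rw [mem_bot.1 hx, mem_bot.1 hy], fun x hx => by
      rw [mem_bot.1 hx, one_pow]⟩
  have hM : ∀ A : Subgroup G, A ≤ N → EA A → Nat.card A ≤ Nat.card A0 :=
    fun A h1 h2 => hA0m A ⟨h1, h2⟩
  have hbase : ∀ w ∈ B, rw' N w = 1 := by
    intro w hw
    by_contra hne
    have h1 := small hB hM hw hne
    have h2 := hmax _ (ea_lift (N := N) hA0)
    rw [card_lift hA0N] at h2
    omega
  set C := B.map (fw N) with hC
  have hCN : C ≤ N := by
    rintro _ ⟨w, hw, rfl⟩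
    exact fw_mem (hbase w hw)
  have hCE : EA C := by
    constructor
    · rintro _ ⟨w, hw, rfl⟩ _ ⟨v, hv, rfl⟩
      rw [← map_mul, ← map_mul, hB.1 w hw v hv]
    · rintro _ ⟨w, hw, rfl⟩
      rw [← map_pow, hB.2 w hw, map_one]
  have hBC : B = lift N C := by
    refine eq_of_le_of_card_ge ?_ (hmax _ (ea_lift hCE))
    intro w hw
    exact ⟨mem_map_of_mem _ hw, hbase w hw⟩
  refine ⟨C, hCN, hCE, ?_, ?_⟩
  · intro A hAN hA
    have h1 := hmax _ (ea_lift (N := N) hA)
    rw [card_lift hAN, hBC, card_lift hCN] at h1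
    exact Nat.le_of_mul_le_mul_right h1 Nat.card_pos
  · -- embedding of `C`
    have hmem : ∀ c ∈ C, ∃ w : WW N, w ∈ B ∧ w.1 = (c, 1) := by
      intro c hc
      refine ⟨⟨(c, 1), ?_⟩, ?_, rfl⟩
      · rw [mem_WW]
        exact (QuotientGroup.eq_one_iff c).2 (hCN hc)
      · rw [hBC, mem_lift]
        exact ⟨hc, rfl⟩
    have hconj : ∀ g : G, ∀ c ∈ C, ∀ b ∈ C, (g * c * g⁻¹) * b * (g * c * g⁻¹)⁻¹ ∈ C := by
      intro g c hc b hb
      obtain ⟨w, hw, hw1⟩ := hmem c hc
      obtain ⟨v, hv, hv1⟩ := hmem b hb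
      set u : WW N := ⟨(g, inl g), by rw [mem_WW]; rfl⟩ with hu
      have h1 : u * w * u⁻¹ ∈ normalClosure (B : Set (WW N)) :=
        normalClosure_normal.conj_mem _ (subset_normalClosure hw) u
      have h2 := hnc _ h1 v hv
      have h3 := mem_map_of_mem (fw N) h2
      have h4 : fw N (u * w * u⁻¹ * v * (u * w * u⁻¹)⁻¹) =
          (g * c * g⁻¹) * b * (g * c * g⁻¹)⁻¹ := by
        simp only [map_mul, map_inv]
        have e1 : fw N u = g := rfl
        have e2 : fw N w = c := congrArg Prod.fst hw1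
        have e3 : fw N v = b := congrArg Prod.fst hv1
        rw [e1, e2, e3]
      rw [h4] at h3
      exact h3
    exact NC.of_conj hconj

end relative

/-- Let (Q) be the question: in every finite 3-group `G` with an elementary abelian subgroup of
order `3 ^ n` there is an elementary abelian subgroup of order `3 ^ n` which is normal in its normal
closure. Equivalent are (Q), the case of the maximal order (M), and the relative version (R) in which
the subgroup is required to lie in a given normal subgroup `N` of `G` having elementary abelian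
subgroups of order `3 ^ n`. -/
theorem result : List.TFAE [
    -- (M)
    ∀ (G : Type) [Group G] [Finite G], IsPGroup 3 G →
      ∃ B : Subgroup G, (∀ x ∈ B, ∀ y ∈ B, x * y = y * x) ∧ (∀ x ∈ B, x ^ 3 = 1) ∧
        (∀ A : Subgroup G, (∀ x ∈ A, ∀ y ∈ A, x * y = y * x) → (∀ x ∈ A, x ^ 3 = 1) →
          Nat.card A ≤ Nat.card B) ∧
        ∀ g ∈ Subgroup.normalClosure (B : Set G), ∀ b ∈ B, g * b * g⁻¹ ∈ B,
    -- (Q)
    ∀ (n : ℕ) (G : Type) [Group G] [Finite G], IsPGroup 3 G →
      (∃ A : Subgroup G, (∀ x ∈ A, ∀ y ∈ A, x * y = y * x) ∧ (∀ x ∈ A, x ^ 3 = 1) ∧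
          Nat.card A = 3 ^ n) →
      ∃ B : Subgroup G, (∀ x ∈ B, ∀ y ∈ B, x * y = y * x) ∧ (∀ x ∈ B, x ^ 3 = 1) ∧
          Nat.card B = 3 ^ n ∧
          ∀ g ∈ Subgroup.normalClosure (B : Set G), ∀ b ∈ B, g * b * g⁻¹ ∈ B,
    -- (R)
    ∀ (n : ℕ) (G : Type) [Group G] [Finite G], IsPGroup 3 G → ∀ N : Subgroup G, N.Normal →
      (∃ A : Subgroup G, A ≤ N ∧ (∀ x ∈ A, ∀ y ∈ A, x * y = y * x) ∧ (∀ x ∈ A, x ^ 3 = 1) ∧
          Nat.card A = 3 ^ n) →
      ∃ B : Subgroup G, B ≤ N ∧ (∀ x ∈ B, ∀ y ∈ B, x * y = y * x) ∧ (∀ x ∈ B, x ^ 3 = 1) ∧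
          Nat.card B = 3 ^ n ∧
          ∀ g ∈ Subgroup.normalClosure (B : Set G), ∀ b ∈ B, g * b * g⁻¹ ∈ B] := by
  tfae_have 1 → 3 := by
    intro h n G _ _ hG N hN hA
    have h' : ∀ (H : Type) [Group H] [Finite H], IsPGroup 3 H →
        ∃ B : Subgroup H, EA B ∧ (∀ A : Subgroup H, EA A → Nat.card A ≤ Nat.card B) ∧ NC B := by
      intro H _ _ hH
      obtain ⟨B, h1, h2, h3, h4⟩ := h H hH
      exact ⟨B, ⟨h1, h2⟩, fun A hA => h3 A hA.1 hA.2, h4⟩
    obtain ⟨B, h1, h2, h3, h4⟩ := rel_max h' hG N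
    obtain ⟨A, hAN, hA1, hA2, hAn⟩ := hA
    obtain ⟨m, hm⟩ := h2.card
    have h5 := h3 A hAN ⟨hA1, hA2⟩
    rw [hAn, hm] at h5
    obtain ⟨C, c1, c2, c3, c4⟩ :=
      descend hG ((Nat.pow_le_pow_iff_right (by norm_num)).1 h5) ⟨B, h1, h2, hm, h4⟩
    exact ⟨C, c1, c2.1, c2.2, c3, c4⟩
  tfae_have 3 → 2 := by
    intro h n G _ _ hG hA
    obtain ⟨A, hA1, hA2⟩ := hA
    obtain ⟨B, -, hB⟩ := h n G hG ⊤ inferInstance ⟨A, le_top, hA1, hA2⟩
    exact ⟨B, hB⟩
  tfae_have 2 → 1 := by
    intro h G _ _ hG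
    obtain ⟨B, h1, h2, h3⟩ := max_of_good (G := G) (fun n hA => by
      obtain ⟨A, hA1, hA2⟩ := hA
      obtain ⟨B, b1, b2, b3, b4⟩ := h n G hG ⟨A, hA1.1, hA1.2, hA2⟩
      exact ⟨B, ⟨b1, b2⟩, b3, b4⟩)
    exact ⟨B, h1.1, h1.2, fun A a1 a2 => h2 A ⟨a1, a2⟩, h3⟩
  tfae_finish

end Pool.Agent.Results.MP_67dbdc_al.RelativeVersion
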