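import Mathlib
import Pool.Agent.Lib.MP_67dbdc_al.MaxOrder

/-!
Elementary abelian subgroups normal in their normal closure, `p = 3`: wreath products and direct
products.
-/

set_option autoImplicit false

open Subgroup MP67R

namespace Pool.Agent.Results.MP_67dbdc_al.WreathProducts

/-- direct products -/
theorem good_prod {G H : Type} [Group G] [Group H] [Finite G] [Finite H] (hG : IsPGroup 3 G)
    (hH : IsPGroup 3 H) (h1 : Good G) (h2 : Good H) : Good (G × H) := by
  have hp3 : Fact (Nat.Prime 3) := ⟨Nat.prime_three⟩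
  have hGH : IsPGroup 3 (G × H) := by
    obtain ⟨n, hn⟩ := IsPGroup.iff_card.1 hG
    obtain ⟨m, hm⟩ := IsPGroup.iff_card.1 hH
    refine IsPGroup.of_card (n := n + m) ?_
    rw [Nat.card_prod, hn, hm, pow_add]
  obtain ⟨B, b1, b2, b3⟩ := max_of_good h1
  obtain ⟨C, c1, c2, c3⟩ := max_of_good h2
  refine good_of_max hGH ⟨B.prod C, ⟨?_, ?_⟩, ?_, ?_⟩
  · rintro x hx y hy
    exact Prod.ext (b1.1 _ hx.1 _ hy.1) (c1.1 _ hx.2 _ hy.2)
  · rintro x hx
    exact Prod.ext (b1.2 _ hx.1) (c1.2 _ hx.2)
  · intro A hA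
    have e1 : EA (A.map (MonoidHom.fst G H)) := by
      constructor
      · rintro _ ⟨w, hw, rfl⟩ _ ⟨v, hv, rfl⟩
        rw [← map_mul, ← map_mul, hA.1 w hw v hv]
      · rintro _ ⟨w, hw, rfl⟩
        rw [← map_pow, hA.2 w hw, map_one]
    have e2 : EA (A.map (MonoidHom.snd G H)) := by
      constructor
      · rintro _ ⟨w, hw, rfl⟩ _ ⟨v, hv, rfl⟩
        rw [← map_mul, ← map_mul, hA.1 w hw v hv]
      · rintro _ ⟨w, hw, rfl⟩
        rw [← map_pow, hA.2 w hw, map_one]
    have e3 : Nat.card A ≤ Nat.card ((A.map (MonoidHom.fst G H)).prod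
        (A.map (MonoidHom.snd G H))) := by
      refine card_le_of_le ?_
      intro x hx
      exact ⟨mem_map_of_mem _ hx, mem_map_of_mem _ hx⟩
    have e4 : ∀ (U : Subgroup G) (V : Subgroup H),
        Nat.card (U.prod V) = Nat.card U * Nat.card V := by
      intro U V
      rw [Nat.card_congr (prodEquiv U V).toEquiv, Nat.card_prod]
    rw [e4] at e3
    rw [e4]
    exact e3.trans (Nat.mul_le_mul (b2 _ e1) (c2 _ e2))
  · have e1 : normalClosure (B.prod C : Set (G × H)) ≤
        (normalClosure (B : Set G)).prod (normalClosure (C : Set H)) := by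
      refine normalClosure_le_normal ?_
      intro x hx
      exact ⟨subset_normalClosure hx.1, subset_normalClosure hx.2⟩
    intro g hg b hb
    obtain ⟨g1, g2⟩ := e1 hg
    exact ⟨b3 _ g1 _ hb.1, c3 _ g2 _ hb.2⟩

/-- the converse for direct products -/
theorem good_of_prod {G H : Type} [Group G] [Group H] [Finite G] [Finite H] (hG : IsPGroup 3 G)
    (hH : IsPGroup 3 H) (h : Good (G × H)) : Good G ∧ Good H := by
  have e4 : ∀ (U : Subgroup G) (V : Subgroup H),
      Nat.card (U.prod V) = Nat.card U * Nat.card V := by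
    intro U V
    rw [Nat.card_congr (prodEquiv U V).toEquiv, Nat.card_prod]
  have hpr : ∀ (U : Subgroup G) (V : Subgroup H), EA U → EA V → EA (U.prod V) := by
    intro U V hU hV
    refine ⟨fun x hx y hy => ?_, fun x hx => ?_⟩
    · exact Prod.ext (hU.1 _ hx.1 _ hy.1) (hV.1 _ hx.2 _ hy.2)
    · exact Prod.ext (hU.2 _ hx.1) (hV.2 _ hx.2)
  obtain ⟨B, b1, b2, b3⟩ := max_of_good h
  set U := B.map (MonoidHom.fst G H) with hU
  set V := B.map (MonoidHom.snd G H) with hV
  have hUE : EA U := b1.map _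
  have hVE : EA V := b1.map _
  have hB : B = U.prod V := by
    refine eq_of_le_of_card_ge ?_ (b2 _ (hpr U V hUE hVE))
    intro x hx
    exact ⟨mem_map_of_mem _ hx, mem_map_of_mem _ hx⟩
  constructor
  · refine good_of_max hG ⟨U, hUE, fun A hA => ?_, NC.of_conj fun g c hc b hb => ?_⟩
    · have h1 := b2 _ (hpr A V hA hVE)
      rw [hB, e4, e4] at h1
      exact Nat.le_of_mul_le_mul_right h1 Nat.card_pos
    · have hm : ∀ c ∈ U, ((c, 1) : G × H) ∈ B := by
        intro c hc
        rw [hB]
        exact ⟨hc, one_mem _⟩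
      have h1 := b3.conj ((g, 1) : G × H) (hm c hc) (hm b hb)
      rw [hB] at h1
      exact h1.1
  · refine good_of_max hH ⟨V, hVE, fun A hA => ?_, NC.of_conj fun g c hc b hb => ?_⟩
    · have h1 := b2 _ (hpr U A hUE hA)
      rw [hB, e4, e4] at h1
      exact Nat.le_of_mul_le_mul_left h1 Nat.card_pos
    · have hm : ∀ c ∈ V, ((1, c) : G × H) ∈ B := by
        intro c hc
        rw [hB]
        exact ⟨one_mem _, hc⟩
      have h1 := b3.conj ((1, g) : G × H) (hm c hc) (hm b hb)
      rw [hB] at h1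
      exact h1.2

section wreath

variable {D Q Ω : Type} [Group D] [Group Q] [MulAction Q Ω]

/-- the permutational wreath product -/
abbrev Wr (D Q Ω : Type) [Group D] [Group Q] [MulAction Q Ω] :=
  (Ω → D) ⋊[(mulAutArrow : Q →* MulAut (Ω → D))] Q

theorem mulAutArrow_val (g : Q) (f : Ω → D) (a : Ω) :
    (mulAutArrow : Q →* MulAut (Ω → D)) g f a = f (g⁻¹ • a) := rfl

theorem aux_ineq {M : ℕ} (h3 : 3 ≤ M) : ∀ k : ℕ, 1 ≤ k → M * k ≤ M ^ k := by
  intro k hk
  induction k, hk using Nat.le_induction with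
  | base => simp
  | succ k hk ih =>
    calc M * (k + 1) ≤ M * k * M := by nlinarith [Nat.mul_le_mul_left M hk]
      _ ≤ M ^ k * M := Nat.mul_le_mul_right _ ih
      _ = M ^ (k + 1) := (pow_succ M k).symm

theorem aux_ineq' {M : ℕ} (h3 : 3 ≤ M) : ∀ k : ℕ, 2 ≤ k → M * k < M ^ k := by
  intro k hk
  induction k, hk using Nat.le_induction with
  | base => nlinarith
  | succ k hk ih =>
    calc M * (k + 1) ≤ M * k * M := by nlinarith [Nat.mul_le_mul_left M (show 1 ≤ k by omega)]
      _ < M ^ k * M := Nat.mul_lt_mul_of_pos_right ih (by omega)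
      _ = M ^ (k + 1) := (pow_succ M k).symm

/-- elementary abelian subgroups of wreath products -/
theorem wr_bound [Finite D] [Finite Q] [Finite Ω] [FaithfulSMul Q Ω] {M : ℕ} (h3 : 3 ≤ M)
    (hM : ∀ A : Subgroup D, EA A → Nat.card A ≤ M) (A : Subgroup (Wr D Q Ω)) (hA : EA A) :
    Nat.card A ≤ M ^ Nat.card Ω ∧ ((∃ a ∈ A, a.right ≠ 1) → Nat.card A < M ^ Nat.card Ω) := by
  classical
  set P : Subgroup Q := A.map SemidirectProduct.rightHom with hP
  set F : Subgroup (Ω → D) := A.comap SemidirectProduct.inl with hF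
  let X := MulAction.orbitRel.Quotient P Ω
  have hXf : Finite X := inferInstanceAs (Finite (Quotient _))
  let hXt : Fintype X := Fintype.ofFinite X
  -- cardinality of A
  have h1 : Nat.card A = Nat.card F * Nat.card P := by
    have h2 : Nat.card ((SemidirectProduct.rightHom : Wr D Q Ω →* Q).ker.subgroupOf A) *
        ((SemidirectProduct.rightHom : Wr D Q Ω →* Q).ker.subgroupOf A).index
        = Nat.card A := card_mul_index _
    have h3 : ((SemidirectProduct.rightHom : Wr D Q Ω →* Q).ker.subgroupOf A).index =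
        Nat.card P := relIndex_ker A _
    have h4 : Nat.card ((SemidirectProduct.rightHom : Wr D Q Ω →* Q).ker.subgroupOf A) =
        Nat.card F := by
      refine (Nat.card_congr ?_).symm
      refine ⟨fun f => ⟨⟨SemidirectProduct.inl f.1, f.2⟩, by
          rw [mem_subgroupOf, MonoidHom.mem_ker]; simp⟩,
        fun w => ⟨w.1.1.left, ?_⟩, ?_, ?_⟩
      · have hw : w.1.1.right = 1 := w.2
        have h5 : (SemidirectProduct.inl w.1.1.left : Wr D Q Ω) = w.1.1 :=
          SemidirectProduct.ext rfl hw.symm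
        rw [hF, mem_comap, h5]
        exact w.1.2
      · intro f
        rfl
      · intro w
        have hw : w.1.1.right = 1 := w.2
        apply Subtype.ext
        apply Subtype.ext
        exact SemidirectProduct.ext rfl hw.symm
    rw [← h2, h3, h4]
  have hFE : EA F := by
    constructor
    · intro x hx y hy
      have := hA.1 _ hx _ hy
      rw [← map_mul, ← map_mul] at this
      exact SemidirectProduct.inl_injective this
    · intro x hx
      have := hA.2 _ hx
      rw [← map_pow] at this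
      exact SemidirectProduct.inl_injective (this.trans (map_one _).symm)
  -- invariance
  have hinv : ∀ h ∈ F, ∀ σ ∈ P, ∀ ω : Ω, h ω = 1 → h (σ • ω) = 1 := by
    rintro h hh _ ⟨a, ha, rfl⟩ ω hω
    have hc := hA.1 _ hh a ha
    have hc1 := congrArg (fun z : Wr D Q Ω => z.left (a.right • ω)) hc
    simp only [SemidirectProduct.mul_left, Pi.mul_apply, SemidirectProduct.left_inl,
      SemidirectProduct.right_inl, map_one, MulAut.one_apply, mulAutArrow_val,
      inv_smul_smul, hω, mul_one] at hc1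
    have h5 : h (a.right • ω) = 1 := by
      have := mul_right_cancel (hc1.trans (one_mul _).symm)
      exact this
    exact h5
  -- the representatives
  let rep : X → Ω := fun x => x.out
  have hrep : ∀ ω : Ω, ∃ x : X, ∃ σ ∈ P, ω = σ • rep x := by
    intro ω
    refine ⟨(Quotient.mk'' ω : X), ?_⟩
    have h5 : (MulAction.orbitRel P Ω) (rep (Quotient.mk'' ω : X)) ω :=
      Quotient.mk_out (s := MulAction.orbitRel P Ω) ω
    obtain ⟨σ, hσ⟩ := (MulAction.orbitRel_apply.1 ((MulAction.orbitRel P Ω).symm h5))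
    exact ⟨σ.1, σ.2, hσ.symm⟩
  -- bound for F
  have h6 : Nat.card F ≤ ∏ x : X, M := by
    calc Nat.card F ≤ Nat.card (∀ x : X, F.map (Pi.evalMonoidHom (fun _ : Ω => D) (rep x))) := by
          refine Nat.card_le_card_of_injective
            (fun f x => ⟨f.1 (rep x), mem_map_of_mem (Pi.evalMonoidHom (fun _ : Ω => D) (rep x))
              f.2⟩) ?_
          intro f f' hff
          have h7 : ∀ ω : Ω, (f.1⁻¹ * f'.1) ω = 1 := by
            intro ω
            obtain ⟨x, σ, hσ, rfl⟩ := hrep ω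
            refine hinv _ (mul_mem (inv_mem f.2) f'.2) σ hσ _ ?_
            have h8 := congrArg Subtype.val (congrFun hff x)
            simp only at h8
            rw [Pi.mul_apply, Pi.inv_apply, h8, inv_mul_cancel]
          apply Subtype.ext
          funext ω
          have h9 := h7 ω
          rw [Pi.mul_apply, Pi.inv_apply, inv_mul_eq_one] at h9
          exact h9
      _ = ∏ x : X, Nat.card (F.map (Pi.evalMonoidHom (fun _ : Ω => D) (rep x))) :=
          Nat.card_pi
      _ ≤ ∏ x : X, M := Finset.prod_le_prod' fun x _ => hM _ (hFE.map _)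
  -- bound for P
  have hPc : ∀ x ∈ P, ∀ y ∈ P, x * y = y * x := (hA.map _).1
  have h10 : Nat.card P ≤ ∏ x : X, Nat.card (MulAction.orbitRel.Quotient.orbit x) := by
    calc Nat.card P ≤ Nat.card (∀ x : X, MulAction.orbitRel.Quotient.orbit x) := by
          refine Nat.card_le_card_of_injective (fun σ x => ⟨σ • rep x, ?_⟩) ?_
          · rw [MulAction.orbitRel.Quotient.mem_orbit]
            have h11 : (Quotient.mk'' (rep x) : X) = x := Quotient.out_eq' x
            rw [← h11]
            exact Quotient.sound' ⟨σ, by simp [h11]⟩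
          · intro σ τ hst
            apply Subtype.ext
            apply FaithfulSMul.eq_of_smul_eq_smul (α := Ω)
            intro ω
            obtain ⟨x, ρ, hρ, rfl⟩ := hrep ω
            have h12 : σ.1 • rep x = τ.1 • rep x := congrArg Subtype.val (congrFun hst x)
            rw [smul_smul, smul_smul, hPc _ σ.2 _ hρ, hPc _ τ.2 _ hρ, mul_smul, mul_smul, h12]
      _ = ∏ x : X, Nat.card (MulAction.orbitRel.Quotient.orbit x) := Nat.card_pi
  have h13 : Nat.card Ω = ∑ x : X, Nat.card (MulAction.orbitRel.Quotient.orbit x) := by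
    rw [Nat.card_congr (MulAction.selfEquivSigmaOrbits' P Ω), Nat.card_sigma]
  have h14 : ∀ x : X, 1 ≤ Nat.card (MulAction.orbitRel.Quotient.orbit x) := by
    intro x
    have hne : Nonempty (MulAction.orbitRel.Quotient.orbit x) :=
      ⟨⟨rep x, (MulAction.orbitRel.Quotient.mem_orbit).2 (Quotient.out_eq' x)⟩⟩
    exact Nat.card_pos
  have h15 : Nat.card A ≤ ∏ x : X, M * Nat.card (MulAction.orbitRel.Quotient.orbit x) := by
    calc Nat.card A = Nat.card F * Nat.card P := h1
      _ ≤ (∏ x : X, M) * ∏ x : X, Nat.card (MulAction.orbitRel.Quotient.orbit x) :=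
          Nat.mul_le_mul h6 h10
      _ = ∏ x : X, M * Nat.card (MulAction.orbitRel.Quotient.orbit x) :=
          Finset.prod_mul_distrib.symm
  have h16 : ∏ x : X, M ^ Nat.card (MulAction.orbitRel.Quotient.orbit x) = M ^ Nat.card Ω := by
    rw [Finset.prod_pow_eq_pow_sum, ← h13]
  refine ⟨h15.trans ((Finset.prod_le_prod' fun x _ => aux_ineq h3 _ (h14 x)).trans h16.le), ?_⟩
  rintro ⟨a, ha, hane⟩
  have h17 : ∃ ω : Ω, a.right • ω ≠ ω := by
    by_contra hcon
    simp only [not_exists, not_not] at hcon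
    exact hane (FaithfulSMul.eq_of_smul_eq_smul (α := Ω) fun ω => by rw [hcon ω, one_smul])
  obtain ⟨ω, hω⟩ := h17
  have haP : a.right ∈ P := ⟨a, ha, rfl⟩
  have h18 : 2 ≤ Nat.card (MulAction.orbitRel.Quotient.orbit (Quotient.mk'' ω : X)) := by
    have hnt : Nontrivial (MulAction.orbitRel.Quotient.orbit (Quotient.mk'' ω : X)) :=
      ⟨⟨⟨a.right • ω, (MulAction.orbitRel.Quotient.mem_orbit).2
        (Quotient.sound' ⟨⟨a.right, haP⟩, rfl⟩)⟩,
        ⟨ω, (MulAction.orbitRel.Quotient.mem_orbit).2 rfl⟩, fun h => hω (congrArg Subtype.val h)⟩⟩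
    have := Finite.one_lt_card_iff_nontrivial.2 hnt
    omega
  refine lt_of_le_of_lt h15 (lt_of_lt_of_le ?_ h16.le)
  refine Finset.prod_lt_prod (fun x _ => Nat.mul_pos (by omega) (h14 x))
    (fun x _ => aux_ineq h3 _ (h14 x)) ⟨Quotient.mk'' ω, Finset.mem_univ _, aux_ineq' h3 _ h18⟩

theorem three_le [Finite D] [Nontrivial D] (hD : IsPGroup 3 D) {M : ℕ}
    (hM : ∀ A : Subgroup D, EA A → Nat.card A ≤ M) : 3 ≤ M := by
  have hp3 : Fact (Nat.Prime 3) := ⟨Nat.prime_three⟩
  have h3 : 3 ∣ Nat.card D := by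
    obtain ⟨n, hn, h2⟩ := (IsPGroup.nontrivial_iff_card hD).1 inferInstance
    rw [h2]
    exact dvd_pow_self 3 hn.ne'
  obtain ⟨z, hz⟩ := exists_prime_orderOf_dvd_card' 3 h3
  have hE : EA (zpowers z) := by
    constructor
    · rintro _ ⟨m, rfl⟩ _ ⟨k, rfl⟩
      exact (Commute.zpow_zpow (Commute.refl z) m k).eq
    · rintro _ ⟨m, rfl⟩
      change (z ^ m) ^ 3 = 1
      rw [← zpow_natCast, ← zpow_mul, mul_comm, zpow_mul, zpow_natCast, ← hz,
        pow_orderOf_eq_one, one_zpow]
  have := hM _ hE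
  rwa [Nat.card_zpowers, hz] at this

theorem wr_isPGroup [Finite D] [Finite Q] [Finite Ω] (hD : IsPGroup 3 D) (hQ : IsPGroup 3 Q) :
    IsPGroup 3 (Wr D Q Ω) := by
  have hp3 : Fact (Nat.Prime 3) := ⟨Nat.prime_three⟩
  let hΩt : Fintype Ω := Fintype.ofFinite Ω
  obtain ⟨n, hn⟩ := IsPGroup.iff_card.1 hD
  obtain ⟨m, hm⟩ := IsPGroup.iff_card.1 hQ
  refine IsPGroup.of_card (n := n * Nat.card Ω + m) ?_
  rw [Nat.card_congr SemidirectProduct.equivProd, Nat.card_prod, Nat.card_fun, hn, hm,
    pow_add, ← pow_mul]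

/-- wreath products -/
theorem good_wreath [Finite D] [Finite Q] [Finite Ω] [FaithfulSMul Q Ω] [Nontrivial D]
    (hD : IsPGroup 3 D) (hQ : IsPGroup 3 Q) (h : Good D) : Good (Wr D Q Ω) := by
  classical
  have hp3 : Fact (Nat.Prime 3) := ⟨Nat.prime_three⟩
  let hΩt : Fintype Ω := Fintype.ofFinite Ω
  have hWf : Finite (Wr D Q Ω) := Finite.of_equiv _ SemidirectProduct.equivProd.symm
  obtain ⟨B0, b1, b2, b3⟩ := max_of_good h
  have hM3 : 3 ≤ Nat.card B0 := three_le hD b2
  have hW : IsPGroup 3 (Wr D Q Ω) := wr_isPGroup hD hQ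
  refine good_of_max hW ⟨(Subgroup.pi Set.univ (fun _ : Ω => B0)).map SemidirectProduct.inl,
    EA.map ?_ _, ?_, ?_⟩
  · constructor
    · intro x hx y hy
      funext ω
      exact b1.1 _ (hx ω trivial) _ (hy ω trivial)
    · intro x hx
      funext ω
      exact b1.2 _ (hx ω trivial)
  · intro A hA
    refine (wr_bound hM3 b2 A hA).1.trans (le_of_eq ?_)
    rw [card_map_of_injective SemidirectProduct.inl_injective]
    have e : (Subgroup.pi Set.univ (fun _ : Ω => B0)) ≃ (Ω → B0) :=
      { toFun := fun f ω => ⟨f.1 ω, f.2 ω trivial⟩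
        invFun := fun f => ⟨fun ω => (f ω).1, fun ω _ => (f ω).2⟩
        left_inv := fun _ => rfl
        right_inv := fun _ => rfl }
    rw [Nat.card_congr e, Nat.card_fun]
  · set N : Subgroup (Wr D Q Ω) := (Subgroup.pi Set.univ
      (fun _ : Ω => normalClosure (B0 : Set D))).map SemidirectProduct.inl with hN
    have hNn : N.Normal := by
      refine ⟨?_⟩
      rintro _ ⟨f, hf, rfl⟩ w
      refine ⟨fun ω => w.left ω * f (w.right⁻¹ • ω) * (w.left ω)⁻¹, ?_, ?_⟩
      · intro ω _
        exact normalClosure_normal.conj_mem _ (hf _ trivial) _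
      · refine SemidirectProduct.ext ?_ ?_
        · funext ω
          simp [SemidirectProduct.mul_left, SemidirectProduct.inv_left]
          rfl
        · simp
    have hle : normalClosure (((Subgroup.pi Set.univ (fun _ : Ω => B0)).map
        (SemidirectProduct.inl : (Ω → D) →* Wr D Q Ω) : Subgroup (Wr D Q Ω)) :
          Set (Wr D Q Ω)) ≤ N := by
      refine normalClosure_le_normal ?_
      rintro _ ⟨f, hf, rfl⟩
      exact ⟨f, fun ω _ => subset_normalClosure (hf ω trivial), rfl⟩
    intro g hg b hb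
    obtain ⟨u, hu, rfl⟩ := hle hg
    obtain ⟨v, hv, rfl⟩ := hb
    refine ⟨u * v * u⁻¹, fun ω _ => b3 _ (hu ω trivial) _ (hv ω trivial), ?_⟩
    simp only [map_mul, map_inv]


/-- the converse for wreath products -/
theorem good_of_wreath [Finite D] [Finite Q] [Finite Ω] [FaithfulSMul Q Ω] [Nontrivial D]
    [Nonempty Ω] (hD : IsPGroup 3 D) (h : Good (Wr D Q Ω)) : Good D := by
  classical
  let hΩt : Fintype Ω := Fintype.ofFinite Ω
  have hWf : Finite (Wr D Q Ω) := Finite.of_equiv _ SemidirectProduct.equivProd.symm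
  obtain ⟨B, b1, b2, b3⟩ := max_of_good h
  -- the maximal order in `D`
  obtain ⟨A0, hA0, hA0m⟩ := Set.exists_max_image {A : Subgroup D | EA A}
    (fun A => Nat.card A) (Set.toFinite _) ⟨⊥, EA.bot⟩
  have hpi : ∀ F : Ω → Subgroup D, (∀ ω, EA (F ω)) → EA ((Subgroup.pi Set.univ F).map
      (SemidirectProduct.inl : (Ω → D) →* Wr D Q Ω)) := by
    intro F hF
    refine EA.map ⟨?_, ?_⟩ _
    · intro x hx y hy
      funext ω
      exact (hF ω).1 _ (hx ω trivial) _ (hy ω trivial)
    · intro x hx
      funext ω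
      exact (hF ω).2 _ (hx ω trivial)
  have hcard : ∀ F : Ω → Subgroup D, Nat.card ((Subgroup.pi Set.univ F).map
      (SemidirectProduct.inl : (Ω → D) →* Wr D Q Ω)) = ∏ ω, Nat.card (F ω) := by
    intro F
    rw [card_map_of_injective SemidirectProduct.inl_injective]
    have e : (Subgroup.pi Set.univ F) ≃ (∀ ω, F ω) :=
      { toFun := fun f ω => ⟨f.1 ω, f.2 ω trivial⟩
        invFun := fun f => ⟨fun ω => (f ω).1, fun ω _ => (f ω).2⟩
        left_inv := fun _ => rfl
        right_inv := fun _ => rfl }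
    rw [Nat.card_congr e, Nat.card_pi]
  have hbase : ∀ w ∈ B, w.right = 1 := by
    intro w hw
    by_contra hne
    have h1 := (wr_bound (three_le hD fun A hA => hA0m A hA) (fun A hA => hA0m A hA) B b1).2
      ⟨w, hw, hne⟩
    have h2 := b2 _ (hpi (fun _ => A0) fun _ => hA0)
    rw [hcard, Finset.prod_const, Finset.card_univ, ← Nat.card_eq_fintype_card] at h2
    exact absurd h2 (not_le.2 h1)
  set F : Ω → Subgroup D := fun ω => (B.comap (SemidirectProduct.inl :
    (Ω → D) →* Wr D Q Ω)).map (Pi.evalMonoidHom (fun _ : Ω => D) ω) with hF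
  have hFE : ∀ ω, EA (F ω) := by
    intro ω
    refine EA.map ⟨?_, ?_⟩ _
    · intro x hx y hy
      have := b1.1 _ hx _ hy
      rw [← map_mul, ← map_mul] at this
      exact SemidirectProduct.inl_injective this
    · intro x hx
      have := b1.2 _ hx
      rw [← map_pow] at this
      exact SemidirectProduct.inl_injective (this.trans (map_one _).symm)
  have hBF : B = (Subgroup.pi Set.univ F).map (SemidirectProduct.inl : (Ω → D) →* Wr D Q Ω) := by
    refine eq_of_le_of_card_ge ?_ (b2 _ (hpi F hFE))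
    intro w hw
    have h1 : (SemidirectProduct.inl w.left : Wr D Q Ω) = w :=
      SemidirectProduct.ext rfl (hbase w hw).symm
    refine ⟨w.left, fun ω _ => ⟨w.left, ?_, rfl⟩, h1⟩
    change (SemidirectProduct.inl w.left : Wr D Q Ω) ∈ B
    rw [h1]
    exact hw
  obtain ⟨ω⟩ := ‹Nonempty Ω›
  refine good_of_max hD ⟨F ω, hFE ω, ?_, ?_⟩
  · intro A hA
    have h1 := b2 _ (hpi (Function.update F ω A) (fun x => by
      by_cases hx : x = ω
      · subst hx
        rw [Function.update_self]
        exact hA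
      · rw [Function.update_of_ne hx]
        exact hFE x))
    rw [hBF, hcard, hcard, ← Finset.mul_prod_erase _ _ (Finset.mem_univ ω),
      ← Finset.mul_prod_erase _ _ (Finset.mem_univ ω), Function.update_self] at h1
    have h2 : ∏ x ∈ Finset.univ.erase ω, Nat.card (Function.update F ω A x) =
        ∏ x ∈ Finset.univ.erase ω, Nat.card (F x) := by
      refine Finset.prod_congr rfl fun x hx => ?_
      rw [Function.update_of_ne (Finset.ne_of_mem_erase hx)]
    rw [h2] at h1
    exact Nat.le_of_mul_le_mul_right h1 (Finset.prod_pos fun x _ => Nat.card_pos)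
  · refine NC.of_conj ?_
    intro g c hc b hb
    have hm : ∀ c ∈ F ω, (SemidirectProduct.inl (Pi.mulSingle ω c) : Wr D Q Ω) ∈ B := by
      intro c hc
      rw [hBF]
      refine mem_map_of_mem _ ?_
      intro x _
      by_cases hx : x = ω
      · subst hx
        rw [Pi.mulSingle_eq_same]
        exact hc
      · rw [Pi.mulSingle_eq_of_ne hx]
        exact (F x).one_mem
    have h1 := b3.conj (SemidirectProduct.inl (Pi.mulSingle ω g)) (hm c hc) (hm b hb)
    simp only [← map_mul, ← map_inv] at h1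
    refine ⟨_, h1, ?_⟩
    simp [Pi.evalMonoidHom]

end wreath

/-- Let `D`, `E` and `Q` be finite 3-groups, `D` nontrivial, `Q` acting faithfully on the finite
nonempty set `Ω`. Every statement of the question (all `n`) holds for the group `(D ≀ Q) × E` if and
only if it holds for `D` and for `E`. -/
theorem result (D E Q Ω : Type) [Group D] [Group E] [Group Q] [Finite D] [Finite E] [Finite Q]
    [Finite Ω] [Nonempty Ω] [Nontrivial D] [MulAction Q Ω] [FaithfulSMul Q Ω]
    (hD : IsPGroup 3 D) (hE : IsPGroup 3 E) (hQ : IsPGroup 3 Q) :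
    Good (((Ω → D) ⋊[(mulAutArrow : Q →* MulAut (Ω → D))] Q) × E) ↔ Good D ∧ Good E := by
  have hWf : Finite (Wr D Q Ω) := Finite.of_equiv _ SemidirectProduct.equivProd.symm
  constructor
  · intro h
    obtain ⟨h1, h2⟩ := good_of_prod (wr_isPGroup hD hQ) hE h
    exact ⟨good_of_wreath hD h1, h2⟩
  · rintro ⟨h1, h2⟩
    exact good_prod (wr_isPGroup hD hQ) hE (good_wreath hD hQ h1) h2

end Pool.Agent.Results.MP_67dbdc_al.WreathProducts
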